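import Pool.Agent.J4H85.CD.Stm

/-! Project CD, piece LOW: every query is sensitive to a planted pair. -/

set_option autoImplicit false

namespace Pool.Agent.J4H4.CD

open Finset DomAC0 H568R2 Pool.Agent.J4H85.CD

/-- one pair, one position -/
theorem point {Ω : Type} [Fintype Ω] (p : Ω → ℝ) (hp : ∀ ω, 0 ≤ p ω) (h1 : ∑ ω, p ω = 1)
    (a b : Ω → Bool) (δ : ℝ) (τ : Prop) [Decidable τ]
    (ha : 1 / 2 + δ ≤ ∑ ω, if a ω = true then p ω else 0)
    (hb : ¬ τ → 1 / 2 + δ ≤ ∑ ω, if ¬ b ω = true then p ω else 0) :
    2 * δ - (if τ then 1 else 0) ≤ ∑ ω, if a ω ≠ b ω then p ω else 0 := by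
  by_cases hτ : τ
  · rw [if_pos hτ]
    have h2 : ∑ ω, (if a ω = true then p ω else 0) ≤ 1 := by
      rw [← h1]
      refine Finset.sum_le_sum fun ω _ => ?_
      split_ifs
      · exact le_rfl
      · exact hp ω
    have h3 : 0 ≤ ∑ ω, (if a ω ≠ b ω then p ω else 0) := by
      refine Finset.sum_nonneg fun ω _ => ?_
      split_ifs
      · exact hp ω
      · exact le_rfl
    linarith
  · rw [if_neg hτ]
    have h2 := hb hτ
    have h3 : ∑ ω, (if a ω = true then p ω else 0) + ∑ ω, (if ¬ b ω = true then p ω else 0) ≤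
        ∑ ω, p ω + ∑ ω, (if a ω ≠ b ω then p ω else 0) := by
      rw [← Finset.sum_add_distrib, ← Finset.sum_add_distrib]
      refine Finset.sum_le_sum fun ω _ => ?_
      have := hp ω
      cases a ω <;> cases b ω <;> simp <;> linarith
    rw [h1] at h3
    linarith

theorem t_LOW : S_LOW := by
  classical
  intro k u Ω _ p R y δ hy0 hy1 hp h1 hR
  set w : Bool → ℝ := vp (y / 2) with hw
  have hw0 : ∀ a, 0 ≤ w a := fun a => vp_nonneg (by linarith) (by linarith) a
  have hw1 : ∑ a, w a = 1 := vp_sum _
  let g : Fin k → Fin k → Fin u → (Slot k u → Bool) → ℝ := fun i j e X =>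
    if ∀ l ∈ ({(false, i, e), (true, j, e)} : Finset (Slot k u)), X l = true then 1 else 0
  have hg : ∀ i j e, Ex w (g i j e) = (y / 2) ^ 2 := by
    intro i j e
    have h := Ex_indep (I := Slot k u) hw1 (fun a : Bool => a = true)
      ({(false, i, e), (true, j, e)} : Finset (Slot k u)) (fun _ => (1 : ℝ)) (fun _ _ _ _ => rfl)
    rw [Ex_const hw1] at h
    have hc : ({(false, i, e), (true, j, e)} : Finset (Slot k u)).card = 2 := by
      rw [Finset.card_pair]
      simp
    have hs : ∑ a ∈ univ.filter (fun a : Bool => a = true), w a = y / 2 := by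
      have : (univ.filter (fun a : Bool => a = true)) = {true} := by
        ext a; simp
      rw [this, Finset.sum_singleton]
      rfl
    rw [hc, hs, mul_one] at h
    rw [← h]
    congr 1
    funext X
    simp only [g, one_mul]
  -- the pointwise bound
  have hpt : ∀ X : Slot k u → Bool,
      ∑ i : Fin k, ∑ j : Fin k, ∑ _e : Fin u, (2 * δ + ∑ e' : Fin u, (-1) * g i j e' X) ≤
        ∑ ω, p ω * ∑ i : Fin k, ∑ j : Fin k,
          ((univ.filter (fun e : Fin u => R ω (pl2 i j e X) i j ≠ R ω X i j)).card : ℝ) := by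
    intro X
    have e1 : ∑ ω, p ω * ∑ i : Fin k, ∑ j : Fin k,
          ((univ.filter (fun e : Fin u => R ω (pl2 i j e X) i j ≠ R ω X i j)).card : ℝ) =
        ∑ i : Fin k, ∑ j : Fin k, ∑ e : Fin u,
          ∑ ω, if R ω (pl2 i j e X) i j ≠ R ω X i j then p ω else 0 := by
      simp only [Finset.mul_sum]
      rw [Finset.sum_comm]
      refine Finset.sum_congr rfl fun i _ => ?_
      rw [Finset.sum_comm]
      refine Finset.sum_congr rfl fun j _ => ?_
      rw [Finset.sum_comm (s := (univ : Finset (Fin u)))]
      refine Finset.sum_congr rfl fun ω _ => ?_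
      rw [Finset.card_filter]
      push_cast
      rw [Finset.mul_sum]
      refine Finset.sum_congr rfl fun e _ => ?_
      split_ifs <;> simp
    rw [e1]
    refine Finset.sum_le_sum fun i _ => Finset.sum_le_sum fun j _ => Finset.sum_le_sum fun e _ => ?_
    have ht : ∃ e', pl2 i j e X (false, i, e') = true ∧ pl2 i j e X (true, j, e') = true := by
      refine ⟨e, ?_, ?_⟩
      · unfold pl2
        rw [Function.update_of_ne (by simp), Function.update_self]
      · unfold pl2
        rw [Function.update_self]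
    have ha := hR (pl2 i j e X) i j
    simp only [ht, iff_true] at ha
    have hb : ¬ (∃ e', X (false, i, e') = true ∧ X (true, j, e') = true) →
        1 / 2 + δ ≤ ∑ ω, if ¬ R ω X i j = true then p ω else 0 := by
      intro hn
      have := hR X i j
      simp only [hn, iff_false] at this
      exact this
    refine le_trans ?_ (point p hp h1 (fun ω => R ω (pl2 i j e X) i j) (fun ω => R ω X i j) δ
      (∃ e', X (false, i, e') = true ∧ X (true, j, e') = true) ha hb)
    have hgn : ∀ e', 0 ≤ g i j e' X := by
      intro e'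
      simp only [g]
      split_ifs <;> norm_num
    have e2 : ∑ e' : Fin u, (-1) * g i j e' X = - ∑ e' : Fin u, g i j e' X := by
      rw [← Finset.mul_sum]
      ring
    rw [e2]
    by_cases hn : ∃ e', X (false, i, e') = true ∧ X (true, j, e') = true
    · rw [if_pos hn]
      obtain ⟨e', he1, he2⟩ := hn
      have h3 : g i j e' X ≤ ∑ e'' : Fin u, g i j e'' X :=
        Finset.single_le_sum (f := fun e'' => g i j e'' X) (fun e'' _ => hgn e'') (mem_univ e')
      have h4 : g i j e' X = 1 := by
        simp only [g]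
        rw [if_pos]
        intro l hl
        simp only [mem_insert, mem_singleton] at hl
        rcases hl with rfl | rfl
        · exact he1
        · exact he2
      linarith
    · rw [if_neg hn]
      have h3 : 0 ≤ ∑ e'' : Fin u, g i j e'' X := Finset.sum_nonneg fun e'' _ => hgn e''
      linarith
  have hmain := Ex_mono (w := w) hw0 hpt
  have hL : Ex w (fun X => ∑ i : Fin k, ∑ j : Fin k, ∑ _e : Fin u,
      (2 * δ + ∑ e' : Fin u, (-1) * g i j e' X)) = (2 * δ - u * (y / 2) ^ 2) * ((k : ℝ) ^ 2 * u) := by
    rw [Ex_sum]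
    have : ∀ i : Fin k, Ex w (fun X => ∑ j : Fin k, ∑ _e : Fin u,
        (2 * δ + ∑ e' : Fin u, (-1) * g i j e' X)) = k * (u * (2 * δ - u * (y / 2) ^ 2)) := by
      intro i
      rw [Ex_sum]
      have h5 : ∀ j : Fin k, Ex w (fun X => ∑ _e : Fin u,
          (2 * δ + ∑ e' : Fin u, (-1) * g i j e' X)) = u * (2 * δ - u * (y / 2) ^ 2) := by
        intro j
        rw [Ex_sum]
        have h6 : Ex w (fun X => 2 * δ + ∑ e' : Fin u, (-1) * g i j e' X) =
            2 * δ - u * (y / 2) ^ 2 := by
          rw [Ex_add, Ex_const hw1, Ex_sum]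
          have h7 : ∀ e' : Fin u, Ex w (fun X => (-1) * g i j e' X) = -(y / 2) ^ 2 := by
            intro e'
            rw [Ex_smul, hg]
            ring
          rw [Finset.sum_congr rfl fun e' _ => h7 e']
          simp
          ring
        rw [Finset.sum_congr rfl fun e _ => h6]
        simp only [sum_const, card_univ, Fintype.card_fin, nsmul_eq_mul]
      rw [Finset.sum_congr rfl fun j _ => h5 j]
      simp only [sum_const, card_univ, Fintype.card_fin, nsmul_eq_mul]
    rw [Finset.sum_congr rfl fun i _ => this i]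
    simp only [sum_const, card_univ, Fintype.card_fin, nsmul_eq_mul]
    ring
  rw [hL] at hmain
  refine hmain.trans (le_of_eq ?_)
  rw [Ex_sum]
  refine Finset.sum_congr rfl fun ω _ => ?_
  rw [Ex_smul]

end Pool.Agent.J4H4.CD
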